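import Pool.Agent.W402.HI.Defs

set_option autoImplicit false

open Filter Topology MeasureTheory Metric

namespace Pool.Agent.W261.HI.A3

open Pool.Agent.W402.HI

/-- a real differentiable function with `D f = 0` at a point is complex differentiable there -/
lemma cdiff {f : ℂ → ℂ} {z : ℂ} (hd : DifferentiableAt ℝ f z) (h : D f z = 0) :
    DifferentiableAt ℂ f z := by
  rw [differentiableAt_complex_iff_differentiableAt_real]
  refine ⟨hd, ?_⟩
  unfold D at h
  rw [smul_eq_mul]
  have h2 : Complex.I * (fderiv ℝ f z 1 + Complex.I * fderiv ℝ f z Complex.I) = 0 := by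
    rw [h, mul_zero]
  have h3 : Complex.I * Complex.I = -1 := Complex.I_mul_I
  linear_combination (-1 : ℂ) * h2 + (fderiv ℝ f z Complex.I) * h3

/-- a complex differentiable function has `D f = 0` -/
lemma D_of_cdiff {f : ℂ → ℂ} {z : ℂ} (hd : DifferentiableAt ℂ f z) : D f z = 0 := by
  have h := (differentiableAt_complex_iff_differentiableAt_real.1 hd).2
  unfold D
  rw [h, smul_eq_mul, ← mul_assoc, Complex.I_mul_I]
  ring

/-- the profile -/
noncomputable def rho (t : ℝ) : ℝ := 1 - Real.smoothTransition (t - 1)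

lemma rho_contDiff : ContDiff ℝ 2 rho := by
  unfold rho
  exact contDiff_const.sub (Real.smoothTransition.contDiff.comp (contDiff_id.sub contDiff_const))

lemma rho_diff : Differentiable ℝ rho := rho_contDiff.differentiable (by norm_num)

lemma rho_deriv_cont : Continuous (deriv rho) :=
  rho_contDiff.continuous_deriv (by norm_num)

lemma rho_anti : Antitone rho := by
  intro a b hab
  unfold rho
  have := Real.smoothTransition.monotone (show a - 1 ≤ b - 1 by linarith)
  linarith

lemma rho_deriv_nonpos (t : ℝ) : deriv rho t ≤ 0 := rho_anti.deriv_nonpos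

lemma rho_one {t : ℝ} (ht : t ≤ 1) : rho t = 1 := by
  unfold rho
  rw [Real.smoothTransition.zero_of_nonpos (by linarith)]
  ring

lemma rho_zero {t : ℝ} (ht : 2 ≤ t) : rho t = 0 := by
  unfold rho
  rw [Real.smoothTransition.one_of_one_le (by linarith)]
  ring

lemma rho_deriv_zero_of_lt {t : ℝ} (ht : t < 1) : deriv rho t = 0 := by
  have : rho =ᶠ[𝓝 t] fun _ => (1 : ℝ) := by
    filter_upwards [Iio_mem_nhds ht] with s hs
    exact rho_one (le_of_lt hs)
  rw [this.deriv_eq]
  simp

lemma rho_deriv_zero_of_gt {t : ℝ} (ht : 2 < t) : deriv rho t = 0 := by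
  have : rho =ᶠ[𝓝 t] fun _ => (0 : ℝ) := by
    filter_upwards [Ioi_mem_nhds ht] with s hs
    exact rho_zero (le_of_lt hs)
  rw [this.deriv_eq]
  simp

lemma rho_deriv_ne : ∃ t : ℝ, 1 < t ∧ t < 2 ∧ deriv rho t ≠ 0 := by
  obtain ⟨t, ht, h⟩ := exists_deriv_eq_slope rho (show (1 : ℝ) < 2 by norm_num)
    rho_diff.continuous.continuousOn (rho_diff.differentiableOn)
  refine ⟨t, ht.1, ht.2, ?_⟩
  rw [h, rho_zero le_rfl, rho_one le_rfl]
  norm_num

/-- the cut-off -/
noncomputable def psi (μ : ℂ) (z : ℂ) : ℂ := ((rho (Complex.normSq (z - μ)) : ℝ) : ℂ)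

lemma normSq_hasFDerivAt (w : ℂ) : HasFDerivAt (𝕜 := ℝ) Complex.normSq
    ((2 * w.re) • Complex.reCLM + (2 * w.im) • Complex.imCLM) w := by
  have h1 : HasFDerivAt (𝕜 := ℝ) (fun z : ℂ => z.re * z.re + z.im * z.im)
      ((w.re • Complex.reCLM + w.re • Complex.reCLM) +
        (w.im • Complex.imCLM + w.im • Complex.imCLM)) w := by
    have hr : HasFDerivAt (𝕜 := ℝ) (fun z : ℂ => z.re) Complex.reCLM w :=
      Complex.reCLM.hasFDerivAt
    have hi : HasFDerivAt (𝕜 := ℝ) (fun z : ℂ => z.im) Complex.imCLM w :=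
      Complex.imCLM.hasFDerivAt
    exact (hr.mul hr).add (hi.mul hi)
  have h2 : (Complex.normSq : ℂ → ℝ) = fun z : ℂ => z.re * z.re + z.im * z.im := by
    funext z
    exact Complex.normSq_apply z
  rw [h2]
  convert h1 using 1
  rw [← add_smul, ← add_smul]
  ring_nf

lemma psi_hasFDerivAt (μ z : ℂ) : HasFDerivAt (𝕜 := ℝ) (psi μ)
    (Complex.ofRealCLM.comp ((deriv rho (Complex.normSq (z - μ))) •
      ((2 * (z - μ).re) • Complex.reCLM + (2 * (z - μ).im) • Complex.imCLM))) z := by
  have h1 : HasFDerivAt (𝕜 := ℝ) (fun w : ℂ => Complex.normSq (w - μ))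
      ((2 * (z - μ).re) • Complex.reCLM + (2 * (z - μ).im) • Complex.imCLM) z := by
    have h0 : HasFDerivAt (𝕜 := ℝ) (fun w : ℂ => w - μ) (ContinuousLinearMap.id ℝ ℂ) z :=
      (hasFDerivAt_id z).sub_const μ
    have := (normSq_hasFDerivAt (z - μ)).comp z h0
    rw [ContinuousLinearMap.comp_id] at this
    exact this
  have h2 : HasDerivAt rho (deriv rho (Complex.normSq (z - μ))) (Complex.normSq (z - μ)) :=
    (rho_diff _).hasDerivAt
  have h3 := h2.comp_hasFDerivAt z h1
  exact Complex.ofRealCLM.hasFDerivAt.comp z h3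

lemma psi_diff (μ : ℂ) : Differentiable ℝ (psi μ) := fun z =>
  (psi_hasFDerivAt μ z).differentiableAt

lemma D_psi (μ z : ℂ) : D (psi μ) z =
    (z - μ) * ((2 * deriv rho (Complex.normSq (z - μ)) : ℝ) : ℂ) := by
  unfold D
  rw [(psi_hasFDerivAt μ z).fderiv]
  simp only [ContinuousLinearMap.comp_apply, _root_.smul_apply,
    _root_.add_apply, Complex.reCLM_apply, Complex.imCLM_apply,
    Complex.ofRealCLM_apply, Complex.one_re, Complex.one_im, Complex.I_re, Complex.I_im,
    smul_eq_mul]
  apply Complex.ext <;> simp <;> ring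

lemma psi_self (μ : ℂ) : psi μ μ = 1 := by
  unfold psi
  rw [sub_self, Complex.normSq_zero, rho_one (by norm_num)]
  simp

lemma psi_supp (μ : ℂ) : HasCompactSupport (psi μ) := by
  apply HasCompactSupport.intro (isCompact_closedBall μ 2)
  intro z hz
  unfold psi
  have h1 : 2 < ‖z - μ‖ := by
    rw [mem_closedBall, dist_eq_norm, not_le] at hz
    exact hz
  have h2 : 2 ≤ Complex.normSq (z - μ) := by
    rw [Complex.normSq_eq_norm_sq]
    nlinarith
  rw [rho_zero h2]
  simp

lemma kfun_cont (μ : ℂ) : Continuous (fun z : ℂ => deriv rho (Complex.normSq (z - μ))) :=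
  rho_deriv_cont.comp (Complex.continuous_normSq.comp (continuous_id.sub continuous_const))

lemma kfun_supp (μ : ℂ) :
    HasCompactSupport (fun z : ℂ => deriv rho (Complex.normSq (z - μ))) := by
  apply HasCompactSupport.intro (isCompact_closedBall μ 2)
  intro z hz
  have h1 : 2 < ‖z - μ‖ := by
    rw [mem_closedBall, dist_eq_norm, not_le] at hz
    exact hz
  have h2 : 2 < Complex.normSq (z - μ) := by
    rw [Complex.normSq_eq_norm_sq]
    nlinarith
  exact rho_deriv_zero_of_gt h2

/-- the constant -/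
noncomputable def kap (μ : ℂ) : ℝ := ∫ z : ℂ, -(deriv rho (Complex.normSq (z - μ)))

lemma kap_pos (μ : ℂ) : 0 < kap μ := by
  obtain ⟨t, h1, h2, h3⟩ := rho_deriv_ne
  unfold kap
  apply Continuous.integral_pos_of_hasCompactSupport_nonneg_nonzero (x := μ + (Real.sqrt t : ℂ))
  · exact (kfun_cont μ).neg
  · exact (kfun_supp μ).neg
  · intro z
    have := rho_deriv_nonpos (Complex.normSq (z - μ))
    simp only [Pi.zero_apply]
    linarith
  · have : Complex.normSq (μ + (Real.sqrt t : ℂ) - μ) = t := by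
      rw [add_sub_cancel_left, Complex.normSq_ofReal, Real.mul_self_sqrt (by linarith)]
    rw [this]
    exact neg_ne_zero.2 h3

lemma psi_fderiv_bd (μ : ℂ) : ∃ C : ℝ, ∀ z, ‖fderiv ℝ (psi μ) z‖ ≤ C := by
  have hc : ContDiff ℝ 1 (psi μ) := by
    unfold psi
    apply Complex.ofRealCLM.contDiff.comp
    apply (rho_contDiff.of_le (by norm_num)).comp
    have h2 : (fun z : ℂ => Complex.normSq (z - μ)) =
        fun z : ℂ => (z - μ).re * (z - μ).re + (z - μ).im * (z - μ).im := by
      funext z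
      exact Complex.normSq_apply _
    rw [h2]
    have hr : ContDiff ℝ 1 (fun z : ℂ => (z - μ).re) :=
      Complex.reCLM.contDiff.comp (contDiff_id.sub contDiff_const)
    have hi : ContDiff ℝ 1 (fun z : ℂ => (z - μ).im) :=
      Complex.imCLM.contDiff.comp (contDiff_id.sub contDiff_const)
    exact (hr.mul hr).add (hi.mul hi)
  have hcont : Continuous (fderiv ℝ (psi μ)) := hc.continuous_fderiv (by norm_num)
  have hs : HasCompactSupport (fderiv ℝ (psi μ)) := (psi_supp μ).fderiv ℝ
  exact hs.exists_bound_of_continuous hcont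

lemma psi_tst (μ : ℂ) : Tst (psi μ) := ⟨psi_diff μ, psi_fderiv_bd μ, psi_supp μ⟩

/-- division by `z - μ` of a test function which is holomorphic near `μ` and vanishes at `μ` -/
lemma div_tst {F : ℂ → ℂ} (hF : Tst F) {μ : ℂ} (h0 : F μ = 0) (hol : ∀ᶠ z in 𝓝 μ, D F z = 0) :
    Tst (dslope F μ) := by
  obtain ⟨C, hC⟩ := hF.bd
  obtain ⟨C0, hC0⟩ := hF.supp.exists_bound_of_continuous hF.diff.continuous
  obtain ⟨e, he, hball⟩ := Metric.eventually_nhds_iff_ball.1 hol
  have hFc : DifferentiableOn ℂ F (ball μ e) := fun z hz =>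
    (cdiff (hF.diff z) (hball z hz)).differentiableWithinAt
  have hd : DifferentiableOn ℂ (dslope F μ) (ball μ e) :=
    (Complex.differentiableOn_dslope (ball_mem_nhds μ he)).2 hFc
  have hda : ∀ z ∈ ball μ e, DifferentiableAt ℂ (dslope F μ) z := fun z hz =>
    (hd z hz).differentiableAt (isOpen_ball.mem_nhds hz)
  have heq : ∀ z, z ≠ μ → dslope F μ =ᶠ[𝓝 z] fun w => (w - μ)⁻¹ * F w := by
    intro z hz
    filter_upwards [isOpen_ne.mem_nhds hz] with w hw
    rw [dslope_of_ne _ hw, slope_def_field, h0, sub_zero, div_eq_inv_mul]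
  have hder : ∀ z, z ≠ μ → HasFDerivAt (𝕜 := ℝ) (dslope F μ)
      ((z - μ)⁻¹ • fderiv ℝ F z +
        (F z) • ((ContinuousLinearMap.toSpanSingleton ℂ (-((z - μ) ^ 2)⁻¹)).restrictScalars ℝ)) z := by
    intro z hz
    have hz0 : z - μ ≠ 0 := sub_ne_zero.2 hz
    have h1 : HasFDerivAt (𝕜 := ℝ) F (fderiv ℝ F z) z := (hF.diff z).hasFDerivAt
    have h2 : HasDerivAt (fun w : ℂ => (w - μ)⁻¹) (-((z - μ) ^ 2)⁻¹) z := by
      have := ((hasDerivAt_id z).sub_const μ).inv hz0
      refine this.congr_deriv ?_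
      rw [id, neg_div, one_div]
    have h3 : HasFDerivAt (𝕜 := ℝ) (fun w : ℂ => (w - μ)⁻¹)
        ((ContinuousLinearMap.toSpanSingleton ℂ (-((z - μ) ^ 2)⁻¹)).restrictScalars ℝ) z :=
      h2.hasFDerivAt.restrictScalars ℝ
    exact (h3.mul h1).congr_of_eventuallyEq (heq z hz)
  refine ⟨?_, ?_, ?_⟩
  · intro z
    by_cases hz : z = μ
    · rw [hz]
      exact (hda μ (mem_ball_self he)).restrictScalars ℝ
    · exact (hder z hz).differentiableAt
  · -- bound near `μ`
    have hcd : ContinuousOn (fderiv ℝ (dslope F μ)) (closedBall μ (e / 2)) := by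
      have han : AnalyticOnNhd ℂ (dslope F μ) (ball μ e) := hd.analyticOnNhd isOpen_ball
      intro z hz
      have hz' : z ∈ ball μ e := closedBall_subset_ball (by linarith) hz
      have h1 : AnalyticAt ℝ (dslope F μ) z := (han z hz').restrictScalars
      exact h1.fderiv.continuousAt.continuousWithinAt
    obtain ⟨C1, hC1⟩ := (isCompact_closedBall μ (e / 2)).exists_bound_of_continuousOn hcd
    refine ⟨max C1 ((e / 2)⁻¹ * C + C0 * ((e / 2) ^ 2)⁻¹), fun z => ?_⟩
    by_cases hz : z ∈ closedBall μ (e / 2)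
    · exact le_max_of_le_left (hC1 z hz)
    · have h1 : e / 2 < ‖z - μ‖ := by
        rw [mem_closedBall, dist_eq_norm, not_le] at hz
        exact hz
      have hzμ : z ≠ μ := by
        intro h
        rw [h, sub_self, norm_zero] at h1
        linarith
      apply le_max_of_le_right
      rw [(hder z hzμ).fderiv]
      have hC0' : 0 ≤ C0 := le_trans (norm_nonneg _) (hC0 μ)
      have hC' : 0 ≤ C := le_trans (norm_nonneg _) (hC μ)
      have he2 : 0 < e / 2 := by linarith
      have hinv : ‖(z - μ)⁻¹‖ ≤ (e / 2)⁻¹ := by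
        rw [norm_inv]
        exact inv_anti₀ he2 h1.le
      have hinv2 : ‖-((z - μ) ^ 2)⁻¹‖ ≤ ((e / 2) ^ 2)⁻¹ := by
        rw [norm_neg, norm_inv, norm_pow]
        exact inv_anti₀ (by positivity) (pow_le_pow_left₀ he2.le h1.le 2)
      refine (norm_add_le _ _).trans (add_le_add ?_ ?_)
      · rw [norm_smul]
        exact mul_le_mul hinv (hC z) (norm_nonneg _) (by positivity)
      · rw [norm_smul]
        apply mul_le_mul (hC0 z) _ (norm_nonneg _) hC0'
        rw [ContinuousLinearMap.norm_restrictScalars,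
          ContinuousLinearMap.norm_toSpanSingleton]
        exact hinv2
  · apply HasCompactSupport.intro (K := insert μ (tsupport F)) (hF.supp.isCompact.insert μ)
    intro z hz
    rw [Set.mem_insert_iff, not_or] at hz
    rw [dslope_of_ne _ hz.1, slope_def_field, h0, image_eq_zero_of_notMem_tsupport hz.2]
    simp

lemma D_dslope {F : ℂ → ℂ} (hF : Tst F) {μ : ℂ} (h0 : F μ = 0) {z : ℂ} (hz : z ≠ μ) :
    D (dslope F μ) z = D F z / (z - μ) := by
  have hz0 : z - μ ≠ 0 := sub_ne_zero.2 hz
  have heq : dslope F μ =ᶠ[𝓝 z] fun w => (w - μ)⁻¹ * F w := by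
    filter_upwards [isOpen_ne.mem_nhds hz] with w hw
    rw [dslope_of_ne _ hw, slope_def_field, h0, sub_zero, div_eq_inv_mul]
  have h1 : HasFDerivAt (𝕜 := ℝ) F (fderiv ℝ F z) z := (hF.diff z).hasFDerivAt
  have h2 : HasDerivAt (fun w : ℂ => (w - μ)⁻¹) (-((z - μ) ^ 2)⁻¹) z := by
    have := ((hasDerivAt_id z).sub_const μ).inv hz0
    refine this.congr_deriv ?_
    rw [id, neg_div, one_div]
  have h3 : HasFDerivAt (𝕜 := ℝ) (fun w : ℂ => (w - μ)⁻¹)
      ((ContinuousLinearMap.toSpanSingleton ℂ (-((z - μ) ^ 2)⁻¹)).restrictScalars ℝ) z :=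
    h2.hasFDerivAt.restrictScalars ℝ
  have h4 := (h3.mul h1).congr_of_eventuallyEq heq
  unfold D
  rw [h4.fderiv]
  simp only [_root_.add_apply, _root_.smul_apply,
    ContinuousLinearMap.coe_restrictScalars', ContinuousLinearMap.toSpanSingleton_apply,
    smul_eq_mul]
  have h5 : Complex.I * Complex.I = -1 := Complex.I_mul_I
  field_simp
  linear_combination (-(F z)) * h5

lemma D_meas (F : ℂ → ℂ) : Measurable (D F) := by
  unfold D
  exact (measurable_fderiv_apply_const ℝ F 1).add
    ((measurable_fderiv_apply_const ℝ F Complex.I).const_mul Complex.I)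

lemma D_bd {F : ℂ → ℂ} {C : ℝ} (hC : ∀ z, ‖fderiv ℝ F z‖ ≤ C) (z : ℂ) : ‖D F z‖ ≤ 2 * C := by
  unfold D
  have h1 : ‖fderiv ℝ F z 1‖ ≤ C := by
    refine ((fderiv ℝ F z).le_opNorm 1).trans ?_
    simpa using hC z
  have h2 : ‖Complex.I * fderiv ℝ F z Complex.I‖ ≤ C := by
    rw [norm_mul, Complex.norm_I, one_mul]
    refine ((fderiv ℝ F z).le_opNorm Complex.I).trans ?_
    simpa using hC z
  calc _ ≤ _ := norm_add_le _ _
    _ ≤ 2 * C := by linarith

/-- A3 -/
theorem main (h1 : P_A1) : P_A3 := by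
  intro F hF μ hμ hol
  obtain ⟨C, hC⟩ := hF.bd
  obtain ⟨e, he, hball⟩ := Metric.eventually_nhds_iff_ball.1 hol
  -- integrability
  have hint : Integrable (fun z : ℂ => D F z / (z - μ)) := by
    have hm : Measurable (fun z : ℂ => D F z / (z - μ)) :=
      (D_meas F).div (measurable_id.sub_const μ)
    have hzero : ∀ z, z ∉ tsupport F → D F z / (z - μ) = 0 := by
      intro z hz
      have : fderiv ℝ F z = 0 := by
        have := notMem_tsupport_iff_eventuallyEq.1 hz
        rw [this.fderiv_eq]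
        simp
      unfold D
      rw [this]
      simp
    have hon : IntegrableOn (fun z : ℂ => D F z / (z - μ)) (tsupport F) := by
      apply Measure.integrableOn_of_bounded (M := 2 * C / e)
      · exact hF.supp.isCompact.measure_lt_top.ne
      · exact hm.aestronglyMeasurable
      · refine Eventually.of_forall fun z => ?_
        have hC' : 0 ≤ C := le_trans (norm_nonneg _) (hC μ)
        by_cases hz : z ∈ ball μ e
        · rw [hball z hz, zero_div, norm_zero]
          positivity
        · rw [norm_div]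
          have : e ≤ ‖z - μ‖ := by
            rw [mem_ball, dist_eq_norm, not_lt] at hz
            exact hz
          exact div_le_div₀ (by positivity) (D_bd hC z) he this
    exact (integrableOn_iff_integrable_of_support_subset (fun z hz => by
      by_contra h
      exact hz (hzero z h))).1 hon
  set F1 : ℂ → ℂ := fun z => F z - F μ * psi μ z with hF1
  have hD1 : ∀ z, D F1 z = D F z - F μ * D (psi μ) z := by
    intro z
    have hd1 := hF.diff z
    have hd2 := psi_diff μ z
    have : fderiv ℝ F1 z = fderiv ℝ F z - F μ • fderiv ℝ (psi μ) z := by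
      have h3 : HasFDerivAt (𝕜 := ℝ) F1 (fderiv ℝ F z - F μ • fderiv ℝ (psi μ) z) z :=
        hd1.hasFDerivAt.sub (hd2.hasFDerivAt.const_mul (F μ))
      exact h3.fderiv
    unfold D
    rw [this]
    simp only [_root_.sub_apply, _root_.smul_apply, smul_eq_mul]
    ring
  have hT1 : Tst F1 := by
    refine ⟨hF.diff.sub ((psi_diff μ).const_mul (F μ)), ?_, ?_⟩
    · obtain ⟨C2, hC2⟩ := psi_fderiv_bd μ
      refine ⟨C + ‖F μ‖ * C2, fun z => ?_⟩
      have h3 : HasFDerivAt (𝕜 := ℝ) F1 (fderiv ℝ F z - F μ • fderiv ℝ (psi μ) z) z :=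
        (hF.diff z).hasFDerivAt.sub ((psi_diff μ z).hasFDerivAt.const_mul (F μ))
      rw [h3.fderiv]
      refine (norm_sub_le _ _).trans (add_le_add (hC z) ?_)
      rw [norm_smul]
      exact mul_le_mul_of_nonneg_left (hC2 z) (norm_nonneg _)
    · exact hF.supp.sub ((psi_supp μ).mul_left)
  have h10 : F1 μ = 0 := by
    simp only [hF1]
    rw [psi_self]
    ring
  have hol1 : ∀ᶠ z in 𝓝 μ, D F1 z = 0 := by
    filter_upwards [hol, ball_mem_nhds μ one_pos] with z hz hz1
    rw [hD1, hz, D_psi]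
    have : Complex.normSq (z - μ) < 1 := by
      rw [Complex.normSq_eq_norm_sq]
      rw [mem_ball, dist_eq_norm] at hz1
      have := norm_nonneg (z - μ)
      nlinarith
    rw [rho_deriv_zero_of_lt this]
    simp
  have hmain := h1 _ (div_tst hT1 h10 hol1)
  have hae : (fun z : ℂ => D (dslope F1 μ) z) =ᵐ[volume] fun z : ℂ =>
      D F z / (z - μ) - F μ * ((2 * deriv rho (Complex.normSq (z - μ)) : ℝ) : ℂ) := by
    have : ∀ᵐ z : ℂ, z ≠ μ := by
      rw [ae_iff]
      simp
    filter_upwards [this] with z hz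
    rw [D_dslope hT1 h10 hz, hD1, D_psi]
    have hz0 : z - μ ≠ 0 := sub_ne_zero.2 hz
    field_simp
  rw [integral_congr_ae hae] at hmain
  have hint2 : Integrable (fun z : ℂ =>
      F μ * ((2 * deriv rho (Complex.normSq (z - μ)) : ℝ) : ℂ)) := by
    apply Integrable.const_mul
    apply Integrable.ofReal
    apply Integrable.const_mul
    exact (kfun_cont μ).integrable_of_hasCompactSupport (kfun_supp μ)
  rw [integral_sub hint hint2] at hmain
  have hval : ∫ z : ℂ, F μ * ((2 * deriv rho (Complex.normSq (z - μ)) : ℝ) : ℂ) =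
      F μ * ((-2 * kap μ : ℝ) : ℂ) := by
    rw [integral_const_mul, integral_complex_ofReal, integral_const_mul]
    congr 2
    unfold kap
    rw [integral_neg]
    ring
  rw [hval] at hmain
  intro hcon
  rw [hcon, zero_sub, neg_eq_zero] at hmain
  have hk := kap_pos μ
  have : ((-2 * kap μ : ℝ) : ℂ) ≠ 0 := by
    rw [Complex.ofReal_ne_zero]
    linarith
  exact (mul_ne_zero hμ this) hmain

end Pool.Agent.W261.HI.A3
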